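import Mathlib

/-!
# Convolution recursions with a parity effect: the inequalities

`u 1 = 1`, `u 2 = T`, and for `d ≥ 3` the number `u d` lies between `(d - 2) ^ 8 T u (d - 2)` and
`(d - 2) ^ 8 T u (d - 2) + d / 64 ∑ u j u (d - j)`.  If `T ≥ 2 ^ 27` then
`u (2 m + 1) ^ (2 m) < u (2 m) ^ (2 m + 1)` for all `m ≥ 1`.
-/

set_option autoImplicit false

namespace Pool.Agent.Q209.Osc

open Finset

/-- The comparison sequence. -/
noncomputable def LL (T : ℝ) : ℕ → ℝ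
  | 0 => 1
  | 1 => 1
  | 2 => T
  | (d + 3) => ((d + 1 : ℕ) : ℝ) ^ 8 * T * LL T (d + 1)

theorem LL_pos {T : ℝ} (hT : 1 ≤ T) : ∀ d, 0 < LL T d
  | 0 => by simp [LL]
  | 1 => by simp [LL]
  | 2 => by simp only [LL]; linarith
  | (d + 3) => by
    have := LL_pos hT (d + 1)
    simp only [LL]
    positivity

/-- the neighbour ratio -/
theorem LL_one {T : ℝ} (hT : 1 ≤ T) : ∀ k : ℕ, 1 ≤ k → (k : ℝ) ^ 4 * LL T k ≤ 16 * LL T (k + 1)
  | 0 => fun h => by omega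
  | 1 => fun _ => by simp only [LL]; norm_num; linarith
  | 2 => fun _ => by simp only [LL]; norm_num
  | (k + 3) => fun _ => by
    have ih := LL_one hT (k + 1) (by omega)
    have hp := LL_pos hT (k + 1)
    have hp2 := LL_pos hT (k + 2)
    have e1 : LL T (k + 3) = ((k + 1 : ℕ) : ℝ) ^ 8 * T * LL T (k + 1) := by simp only [LL]
    have e2 : LL T (k + 3 + 1) = ((k + 2 : ℕ) : ℝ) ^ 8 * T * LL T (k + 2) := by
      rw [show k + 3 + 1 = (k + 1) + 3 by ring]; simp only [LL]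
    rw [e1, e2]
    push_cast at ih ⊢
    have hk : (0 : ℝ) ≤ k := Nat.cast_nonneg k
    have h1 : ((k : ℝ) + 3) ^ 4 * ((k : ℝ) + 1) ^ 4 ≤ ((k : ℝ) + 2) ^ 8 := by
      have : ((k : ℝ) + 3) * ((k : ℝ) + 1) ≤ ((k : ℝ) + 2) ^ 2 := by nlinarith
      calc ((k : ℝ) + 3) ^ 4 * ((k : ℝ) + 1) ^ 4 = (((k : ℝ) + 3) * ((k : ℝ) + 1)) ^ 4 := by ring
        _ ≤ (((k : ℝ) + 2) ^ 2) ^ 4 := pow_le_pow_left₀ (by positivity) this 4
        _ = _ := by ring
    have hT0 : 0 ≤ T := by linarith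
    calc ((k : ℝ) + 3) ^ 4 * (((k : ℝ) + 1) ^ 8 * T * LL T (k + 1))
        = (((k : ℝ) + 3) ^ 4 * ((k : ℝ) + 1) ^ 4) * T * (((k : ℝ) + 1) ^ 4 * LL T (k + 1)) := by ring
      _ ≤ ((k : ℝ) + 2) ^ 8 * T * (((k : ℝ) + 1) ^ 4 * LL T (k + 1)) := by gcongr
      _ ≤ ((k : ℝ) + 2) ^ 8 * T * (16 * LL T (k + 1 + 1)) := by gcongr
      _ = 16 * (((k : ℝ) + 2) ^ 8 * T * LL T (k + 2)) := by ring

/-- products are much smaller -/
theorem LL_mul {T : ℝ} (hT : 1 ≤ T) : ∀ j k : ℕ, 1 ≤ j → 1 ≤ k →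
    ((j + k - 1 : ℕ) : ℝ) ^ 4 * (LL T j * LL T k) ≤ 16 * LL T (j + k)
  | 0, _ => fun h => by omega
  | 1, k => fun _ hk => by
    have := LL_one hT k hk
    rw [show 1 + k - 1 = k by omega, show 1 + k = k + 1 by ring]
    simpa [LL] using this
  | 2, k => fun _ hk => by
    have hp := LL_pos hT k
    obtain ⟨l, rfl⟩ : ∃ l, k = l + 1 := ⟨k - 1, by omega⟩
    have e1 : LL T (2 + (l + 1)) = ((l + 1 : ℕ) : ℝ) ^ 8 * T * LL T (l + 1) := by
      rw [show 2 + (l + 1) = l + 3 by ring]; simp only [LL]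
    rw [e1, show 2 + (l + 1) - 1 = l + 2 by omega]
    have e2 : LL T 2 = T := by simp only [LL]
    rw [e2]
    push_cast
    have hl : (0 : ℝ) ≤ l := Nat.cast_nonneg l
    have h1 : ((l : ℝ) + 2) ^ 4 ≤ 16 * ((l : ℝ) + 1) ^ 8 := by
      have h2 : ((l : ℝ) + 2) ≤ 2 * ((l : ℝ) + 1) ^ 2 := by nlinarith
      calc ((l : ℝ) + 2) ^ 4 ≤ (2 * ((l : ℝ) + 1) ^ 2) ^ 4 := pow_le_pow_left₀ (by positivity) h2 4
        _ = _ := by ring
    have hT0 : 0 ≤ T := by linarith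
    calc ((l : ℝ) + 2) ^ 4 * (T * LL T (l + 1)) ≤ (16 * ((l : ℝ) + 1) ^ 8) * (T * LL T (l + 1)) := by
          gcongr
      _ = _ := by ring
  | (j + 3), k => fun _ hk => by
    have ih := LL_mul hT (j + 1) k (by omega) hk
    have hp := LL_pos hT (j + 1)
    have hpk := LL_pos hT k
    have hpp := LL_pos hT (j + 1 + k)
    obtain ⟨l, rfl⟩ : ∃ l, k = l + 1 := ⟨k - 1, by omega⟩
    have e1 : LL T (j + 3) = ((j + 1 : ℕ) : ℝ) ^ 8 * T * LL T (j + 1) := by simp only [LL]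
    have e2 : LL T (j + 3 + (l + 1)) = ((j + l + 2 : ℕ) : ℝ) ^ 8 * T * LL T (j + l + 2) := by
      rw [show j + 3 + (l + 1) = (j + l + 1) + 3 by ring]; simp only [LL]
    rw [e1, e2, show j + 3 + (l + 1) - 1 = j + l + 3 by omega]
    rw [show j + 1 + (l + 1) - 1 = j + l + 1 by omega, show j + 1 + (l + 1) = j + l + 2 by ring] at ih
    rw [show j + 1 + (l + 1) = j + l + 2 by ring] at hpp
    push_cast at ih ⊢
    have hj : (0 : ℝ) ≤ j := Nat.cast_nonneg j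
    have hl : (0 : ℝ) ≤ l := Nat.cast_nonneg l
    have h1 : ((j : ℝ) + l + 3) ^ 4 * ((j : ℝ) + 1) ^ 4 ≤ ((j : ℝ) + l + 2) ^ 8 := by
      have : ((j : ℝ) + l + 3) * ((j : ℝ) + 1) ≤ ((j : ℝ) + l + 2) ^ 2 := by nlinarith
      calc ((j : ℝ) + l + 3) ^ 4 * ((j : ℝ) + 1) ^ 4 = (((j : ℝ) + l + 3) * ((j : ℝ) + 1)) ^ 4 := by ring
        _ ≤ (((j : ℝ) + l + 2) ^ 2) ^ 4 := pow_le_pow_left₀ (by positivity) this 4
        _ = _ := by ring
    have h2 : ((j : ℝ) + 1) ^ 4 ≤ ((j : ℝ) + l + 1) ^ 4 :=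
      pow_le_pow_left₀ (by positivity) (by linarith) 4
    have hT0 : 0 ≤ T := by linarith
    calc ((j : ℝ) + l + 3) ^ 4 * (((j : ℝ) + 1) ^ 8 * T * LL T (j + 1) * LL T (l + 1))
        = (((j : ℝ) + l + 3) ^ 4 * ((j : ℝ) + 1) ^ 4) * T *
            (((j : ℝ) + 1) ^ 4 * (LL T (j + 1) * LL T (l + 1))) := by ring
      _ ≤ ((j : ℝ) + l + 2) ^ 8 * T * (((j : ℝ) + l + 1) ^ 4 * (LL T (j + 1) * LL T (l + 1))) := by
          gcongr
      _ ≤ ((j : ℝ) + l + 2) ^ 8 * T * (16 * LL T (j + l + 2)) := by gcongr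
      _ = 16 * (((j : ℝ) + l + 2) ^ 8 * T * LL T (j + l + 2)) := by ring

/-- The hypotheses on the sequence. -/
structure Rec (T : ℝ) (u : ℕ → ℝ) : Prop where
  one : u 1 = 1
  two : u 2 = T
  lower : ∀ d, 1 ≤ d → ((d : ℕ) : ℝ) ^ 8 * T * u d ≤ u (d + 2)
  upper : ∀ d, 1 ≤ d → u (d + 2) ≤ ((d : ℕ) : ℝ) ^ 8 * T * u d +
    ((d + 2 : ℕ) : ℝ) / 64 * ∑ j ∈ range (d + 1), u (j + 1) * u (d + 1 - j)

theorem Rec.ge {T : ℝ} {u : ℕ → ℝ} (hT : 1 ≤ T) (h : Rec T u) : ∀ d, 1 ≤ d → LL T d ≤ u d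
  | 0 => fun h => by omega
  | 1 => fun _ => by rw [h.one]; simp [LL]
  | 2 => fun _ => by rw [h.two]; simp [LL]
  | (d + 3) => fun _ => by
    have ih := Rec.ge hT h (d + 1) (by omega)
    have h1 := h.lower (d + 1) (by omega)
    refine le_trans ?_ h1
    simp only [LL]
    have : 0 ≤ T := by linarith
    gcongr

theorem Rec.le {T : ℝ} {u : ℕ → ℝ} (hT : 1 ≤ T) (h : Rec T u) (d : ℕ) (hd : 1 ≤ d) :
    u d ≤ (2 - 1 / (d : ℝ)) * LL T d := by
  induction d using Nat.strong_induction_on with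
  | _ d ih =>
    have hT0 : 0 ≤ T := by linarith
    rcases Nat.lt_or_ge d 3 with h3 | h3
    · obtain rfl | rfl : d = 1 ∨ d = 2 := by omega
      · rw [h.one]; simp [LL]; norm_num
      · rw [h.two]; simp [LL]; nlinarith
    · obtain ⟨e, rfl⟩ : ∃ e, d = e + 3 := ⟨d - 3, by omega⟩
      have h1 := h.upper (e + 1) (by omega)
      rw [show e + 1 + 2 = e + 3 by ring] at h1
      have e1 : LL T (e + 3) = ((e + 1 : ℕ) : ℝ) ^ 8 * T * LL T (e + 1) := by simp only [LL]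
      have hpos := LL_pos hT (e + 3)
      have he : (0 : ℝ) ≤ e := Nat.cast_nonneg e
      -- the main term
      have hm := ih (e + 1) (by omega) (by omega)
      have hm2 : ((e + 1 : ℕ) : ℝ) ^ 8 * T * u (e + 1) ≤
          (2 - 1 / ((e + 1 : ℕ) : ℝ)) * LL T (e + 3) := by
        rw [e1]
        calc ((e + 1 : ℕ) : ℝ) ^ 8 * T * u (e + 1)
            ≤ ((e + 1 : ℕ) : ℝ) ^ 8 * T * ((2 - 1 / ((e + 1 : ℕ) : ℝ)) * LL T (e + 1)) := by gcongr
          _ = _ := by ring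
      -- the sum
      have hs : ∑ j ∈ range (e + 1 + 1), u (j + 1) * u (e + 1 + 1 - j) ≤
          ∑ j ∈ range (e + 1 + 1), 64 / ((e + 2 : ℕ) : ℝ) ^ 4 * LL T (e + 3) := by
        refine Finset.sum_le_sum fun j hj => ?_
        rw [Finset.mem_range] at hj
        have a1 := ih (j + 1) (by omega) (by omega)
        have a2 := ih (e + 1 + 1 - j) (by omega) (by omega)
        have p1 := LL_pos hT (j + 1)
        have p2 := LL_pos hT (e + 1 + 1 - j)
        have g1 := Rec.ge hT h (j + 1) (by omega)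
        have g2 := Rec.ge hT h (e + 1 + 1 - j) (by omega)
        have b1 : u (j + 1) ≤ 2 * LL T (j + 1) := by
          refine a1.trans ?_
          have : (0 : ℝ) ≤ 1 / ((j + 1 : ℕ) : ℝ) := by positivity
          nlinarith
        have b2 : u (e + 1 + 1 - j) ≤ 2 * LL T (e + 1 + 1 - j) := by
          refine a2.trans ?_
          have : (0 : ℝ) ≤ 1 / ((e + 1 + 1 - j : ℕ) : ℝ) := by positivity
          nlinarith
        have c1 := LL_mul hT (j + 1) (e + 1 + 1 - j) (by omega) (by omega)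
        rw [show j + 1 + (e + 1 + 1 - j) = e + 3 by omega, show e + 3 - 1 = e + 2 by omega] at c1
        have q : (0 : ℝ) < ((e + 2 : ℕ) : ℝ) ^ 4 := by positivity
        have c2 : LL T (j + 1) * LL T (e + 1 + 1 - j) ≤ 16 / ((e + 2 : ℕ) : ℝ) ^ 4 * LL T (e + 3) := by
          rw [div_mul_eq_mul_div, le_div_iff₀ q]
          linarith
        calc u (j + 1) * u (e + 1 + 1 - j) ≤ (2 * LL T (j + 1)) * (2 * LL T (e + 1 + 1 - j)) := by
              have : 0 ≤ u (e + 1 + 1 - j) := p2.le.trans g2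
              gcongr
          _ = 4 * (LL T (j + 1) * LL T (e + 1 + 1 - j)) := by ring
          _ ≤ 4 * (16 / ((e + 2 : ℕ) : ℝ) ^ 4 * LL T (e + 3)) := by gcongr
          _ = _ := by ring
      rw [Finset.sum_const, Finset.card_range, nsmul_eq_mul] at hs
      have hfin : ((e + 3 : ℕ) : ℝ) / 64 * ∑ j ∈ range (e + 1 + 1), u (j + 1) * u (e + 1 + 1 - j) ≤
          (1 / ((e + 1 : ℕ) : ℝ) - 1 / ((e + 3 : ℕ) : ℝ)) * LL T (e + 3) := by
        calc ((e + 3 : ℕ) : ℝ) / 64 * ∑ j ∈ range (e + 1 + 1), u (j + 1) * u (e + 1 + 1 - j)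
            ≤ ((e + 3 : ℕ) : ℝ) / 64 *
              (((e + 1 + 1 : ℕ) : ℝ) * (64 / ((e + 2 : ℕ) : ℝ) ^ 4 * LL T (e + 3))) := by gcongr
          _ = (((e + 3 : ℕ) : ℝ) / ((e + 2 : ℕ) : ℝ) ^ 3) * LL T (e + 3) := by
              push_cast
              have : (e : ℝ) + 2 ≠ 0 := by positivity
              rw [show (e : ℝ) + 1 + 1 = e + 2 by ring]
              field_simp
          _ ≤ (1 / ((e + 1 : ℕ) : ℝ) - 1 / ((e + 3 : ℕ) : ℝ)) * LL T (e + 3) := by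
              refine mul_le_mul_of_nonneg_right ?_ hpos.le
              push_cast
              have h1 : (0 : ℝ) < (e : ℝ) + 1 := by positivity
              have h2 : (0 : ℝ) < (e : ℝ) + 2 := by positivity
              have h3 : (0 : ℝ) < (e : ℝ) + 3 := by positivity
              rw [div_sub_div _ _ h1.ne' h3.ne', div_le_div_iff₀ (by positivity) (by positivity)]
              nlinarith [mul_nonneg he he, mul_nonneg (mul_nonneg he he) he]
      calc u (e + 3) ≤ _ := h1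
        _ ≤ (2 - 1 / ((e + 1 : ℕ) : ℝ)) * LL T (e + 3) +
            (1 / ((e + 1 : ℕ) : ℝ) - 1 / ((e + 3 : ℕ) : ℝ)) * LL T (e + 3) := add_le_add hm2 hfin
        _ = _ := by ring

end Pool.Agent.Q209.Osc
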