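import Mathlib
import Pool.Agent.Q209.Osc.Core

/-!
# The parity effect: the roots decrease from `2 m` to `2 m + 1`
-/

set_option autoImplicit false

namespace Pool.Agent.Q209.Osc

open Finset

/-- product of the odd numbers `1, 3, …, 2 m - 1` -/
noncomputable def AA (m : ℕ) : ℝ := ∏ i ∈ range m, (2 * (i : ℝ) + 1)

/-- product of the even numbers `2, 4, …, 2 m` -/
noncomputable def BB (m : ℕ) : ℝ := ∏ i ∈ range m, (2 * (i : ℝ) + 2)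

theorem AA_succ (m : ℕ) : AA (m + 1) = (2 * (m : ℝ) + 1) * AA m := by
  unfold AA; rw [prod_range_succ]; ring

theorem BB_succ (m : ℕ) : BB (m + 1) = (2 * (m : ℝ) + 2) * BB m := by
  unfold BB; rw [prod_range_succ]; ring

theorem AA_pos (m : ℕ) : 0 < AA m := prod_pos fun i _ => by positivity

theorem BB_pos (m : ℕ) : 0 < BB m := prod_pos fun i _ => by positivity

theorem LL_odd (T : ℝ) (m : ℕ) : LL T (2 * m + 1) = T ^ m * AA m ^ 8 := by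
  induction m with
  | zero => simp [LL, AA]
  | succ m ih =>
    rw [show 2 * (m + 1) + 1 = 2 * m + 3 by ring]
    simp only [LL]
    rw [ih, AA_succ]
    push_cast
    ring

theorem LL_even (T : ℝ) (m : ℕ) : LL T (2 * m + 2) = T ^ (m + 1) * BB m ^ 8 := by
  induction m with
  | zero => simp [LL, BB]
  | succ m ih =>
    rw [show 2 * (m + 1) + 2 = (2 * m + 1) + 3 by ring]
    simp only [LL]
    rw [show 2 * m + 1 + 1 = 2 * m + 2 by ring, ih, BB_succ]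
    push_cast
    ring

theorem AA_sq (m : ℕ) : AA (m + 1) ^ 2 ≤ (2 * (m : ℝ) + 1) * BB m ^ 2 := by
  induction m with
  | zero => simp [AA, BB]
  | succ m ih =>
    rw [AA_succ (m + 1), BB_succ]
    have hm : (0 : ℝ) ≤ m := Nat.cast_nonneg m
    have hB := BB_pos m
    push_cast
    calc ((2 * ((m : ℝ) + 1) + 1) * AA (m + 1)) ^ 2 = (2 * ((m : ℝ) + 1) + 1) ^ 2 * AA (m + 1) ^ 2 := by
          ring
      _ ≤ (2 * ((m : ℝ) + 1) + 1) ^ 2 * ((2 * (m : ℝ) + 1) * BB m ^ 2) := by gcongr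
      _ = (2 * ((m : ℝ) + 1) + 1) * ((2 * ((m : ℝ) + 1) + 1) * (2 * (m : ℝ) + 1)) * BB m ^ 2 := by ring
      _ ≤ (2 * ((m : ℝ) + 1) + 1) * ((2 * (m : ℝ) + 2) ^ 2) * BB m ^ 2 := by
          gcongr
          nlinarith
      _ = _ := by ring

theorem pow_aux (n : ℕ) (hn : 2 ≤ n) :
    ((n : ℝ) + 1) ^ (n + 2) * ((n : ℝ) - 1) ≤ 8 * (n : ℝ) ^ (n + 3) := by
  have hn0 : (2 : ℝ) ≤ n := by exact_mod_cast hn
  have hpos : (0 : ℝ) < n := by linarith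
  have h1 : (1 + 1 / (n : ℝ)) ^ n ≤ 3 := by
    have h2 : 1 + 1 / (n : ℝ) ≤ Real.exp (1 / n) := by
      have := Real.add_one_le_exp (1 / (n : ℝ)); linarith
    calc (1 + 1 / (n : ℝ)) ^ n ≤ (Real.exp (1 / n)) ^ n := pow_le_pow_left₀ (by positivity) h2 n
      _ = Real.exp 1 := by
          rw [← Real.exp_nat_mul]; congr 1; field_simp
      _ ≤ 3 := by have := Real.exp_one_lt_d9; linarith
  have h3 : ((n : ℝ) + 1) ^ n ≤ 3 * (n : ℝ) ^ n := by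
    have : ((n : ℝ) + 1) ^ n = (1 + 1 / (n : ℝ)) ^ n * (n : ℝ) ^ n := by
      rw [← mul_pow]; congr 1; field_simp
    rw [this]
    gcongr
  have h4 : ((n : ℝ) + 1) ^ 2 * ((n : ℝ) - 1) ≤ 2 * (n : ℝ) ^ 3 := by
    nlinarith [mul_nonneg (mul_nonneg hpos.le hpos.le) (by linarith : (0 : ℝ) ≤ (n : ℝ) - 1)]
  calc ((n : ℝ) + 1) ^ (n + 2) * ((n : ℝ) - 1)
      = ((n : ℝ) + 1) ^ n * (((n : ℝ) + 1) ^ 2 * ((n : ℝ) - 1)) := by ring
    _ ≤ (3 * (n : ℝ) ^ n) * (2 * (n : ℝ) ^ 3) := by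
        have : 0 ≤ ((n : ℝ) + 1) ^ 2 * ((n : ℝ) - 1) := by
          have : 0 ≤ (n : ℝ) - 1 := by linarith
          positivity
        gcongr
    _ = 6 * (n : ℝ) ^ (n + 3) := by ring
    _ ≤ 8 * (n : ℝ) ^ (n + 3) := by gcongr; norm_num

theorem AA_pow (m : ℕ) : AA (m + 1) ^ (2 * m + 2) ≤ 8 ^ (m + 1) * BB m ^ (2 * m + 3) := by
  induction m with
  | zero => simp [AA, BB]
  | succ m ih =>
    have hm : (0 : ℝ) ≤ m := Nat.cast_nonneg m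
    have hB := BB_pos m
    have hA := AA_pos (m + 1)
    have h1 := AA_sq m
    have h2 := pow_aux (2 * m + 2) (by omega)
    push_cast at h2
    have h2' : (2 * (m : ℝ) + 3) ^ (2 * m + 4) * (2 * (m : ℝ) + 1) ≤
        8 * (2 * (m : ℝ) + 2) ^ (2 * m + 5) := by
      convert h2 using 2 <;> ring
    rw [AA_succ (m + 1), BB_succ, mul_pow, mul_pow]
    push_cast
    calc (2 * ((m : ℝ) + 1) + 1) ^ (2 * (m + 1) + 2) * AA (m + 1) ^ (2 * (m + 1) + 2)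
        = (2 * (m : ℝ) + 3) ^ (2 * m + 4) * (AA (m + 1) ^ (2 * m + 2) * AA (m + 1) ^ 2) := by
          ring
      _ ≤ (2 * (m : ℝ) + 3) ^ (2 * m + 4) *
            ((8 ^ (m + 1) * BB m ^ (2 * m + 3)) * ((2 * (m : ℝ) + 1) * BB m ^ 2)) := by gcongr
      _ = ((2 * (m : ℝ) + 3) ^ (2 * m + 4) * (2 * (m : ℝ) + 1)) *
            (8 ^ (m + 1) * BB m ^ (2 * m + 5)) := by ring
      _ ≤ (8 * (2 * (m : ℝ) + 2) ^ (2 * m + 5)) * (8 ^ (m + 1) * BB m ^ (2 * m + 5)) := by gcongr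
      _ = 8 ^ (m + 1 + 1) * ((2 * (m : ℝ) + 2) ^ (2 * (m + 1) + 3) * BB m ^ (2 * (m + 1) + 3)) := by
          ring

theorem LL_lt {T : ℝ} (hT : 2 ^ 27 ≤ T) (m : ℕ) :
    (2 * LL T (2 * m + 3)) ^ (2 * m + 2) < LL T (2 * m + 2) ^ (2 * m + 3) := by
  have hT0 : 0 < T := by linarith [show (0 : ℝ) < 2 ^ 27 by norm_num]
  have hB := BB_pos m
  have hA := AA_pos (m + 1)
  rw [show 2 * m + 3 = 2 * (m + 1) + 1 by ring, LL_odd, LL_even,
    show 2 * (m + 1) + 1 = 2 * m + 3 by ring]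
  have h8 : (AA (m + 1) ^ (2 * m + 2)) ^ 8 ≤ (8 ^ (m + 1) * BB m ^ (2 * m + 3)) ^ 8 :=
    pow_le_pow_left₀ (by positivity) (AA_pow m) 8
  have hc : (2 ^ 26 : ℝ) ^ (m + 1) < T ^ (m + 1) := by
    refine pow_lt_pow_left₀ ?_ (by positivity) (by omega)
    refine lt_of_lt_of_le ?_ hT
    norm_num
  calc (2 * (T ^ (m + 1) * AA (m + 1) ^ 8)) ^ (2 * m + 2)
      = 4 ^ (m + 1) * (T ^ (m + 1)) ^ (2 * m + 2) * (AA (m + 1) ^ (2 * m + 2)) ^ 8 := by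
        rw [mul_pow, mul_pow, ← pow_mul (AA (m + 1)), ← pow_mul (AA (m + 1)),
          mul_comm 8 (2 * m + 2), show 2 * m + 2 = 2 * (m + 1) by ring, pow_mul (2 : ℝ) 2 (m + 1)]
        norm_num
        ring
    _ ≤ 4 ^ (m + 1) * (T ^ (m + 1)) ^ (2 * m + 2) * (8 ^ (m + 1) * BB m ^ (2 * m + 3)) ^ 8 := by
        gcongr
    _ = (2 ^ 26 : ℝ) ^ (m + 1) * ((T ^ (m + 1)) ^ (2 * m + 2) * (BB m ^ 8) ^ (2 * m + 3)) := by
        rw [mul_pow (8 ^ (m + 1)), ← pow_mul (BB m), ← pow_mul (BB m), mul_comm (2 * m + 3) 8,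
          show (2 ^ 26 : ℝ) = 4 * 8 ^ 8 by norm_num, mul_pow (4 : ℝ), ← pow_mul (8 : ℝ) 8 (m + 1),
          ← pow_mul (8 : ℝ) (m + 1) 8, mul_comm (m + 1) 8]
        ring
    _ < T ^ (m + 1) * ((T ^ (m + 1)) ^ (2 * m + 2) * (BB m ^ 8) ^ (2 * m + 3)) := by
        gcongr
    _ = (T ^ (m + 1) * BB m ^ 8) ^ (2 * m + 3) := by
        rw [mul_pow, pow_succ (T ^ (m + 1)) (2 * m + 2)]
        ring

/-- the roots decrease from an even index to the next one -/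
theorem Rec.root_lt {T : ℝ} {u : ℕ → ℝ} (hT : 2 ^ 27 ≤ T) (h : Rec T u) (m : ℕ) :
    u (2 * m + 3) ^ (1 / ((2 * m + 3 : ℕ) : ℝ)) < u (2 * m + 2) ^ (1 / ((2 * m + 2 : ℕ) : ℝ)) := by
  have hT1 : 1 ≤ T := le_trans (by norm_num) hT
  have g3 := Rec.ge hT1 h (2 * m + 3) (by omega)
  have g2 := Rec.ge hT1 h (2 * m + 2) (by omega)
  have p3 := LL_pos hT1 (2 * m + 3)
  have p2 := LL_pos hT1 (2 * m + 2)
  have q3 : u (2 * m + 3) ≤ 2 * LL T (2 * m + 3) := by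
    refine (Rec.le hT1 h (2 * m + 3) (by omega)).trans ?_
    have : (0 : ℝ) ≤ 1 / ((2 * m + 3 : ℕ) : ℝ) := by positivity
    nlinarith
  have key : u (2 * m + 3) ^ (2 * m + 2) < u (2 * m + 2) ^ (2 * m + 3) := by
    calc u (2 * m + 3) ^ (2 * m + 2) ≤ (2 * LL T (2 * m + 3)) ^ (2 * m + 2) :=
          pow_le_pow_left₀ (p3.le.trans g3) q3 _
      _ < LL T (2 * m + 2) ^ (2 * m + 3) := LL_lt hT m
      _ ≤ u (2 * m + 2) ^ (2 * m + 3) := pow_le_pow_left₀ p2.le g2 _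
  have u3 : 0 < u (2 * m + 3) := p3.trans_le g3
  have u2 : 0 < u (2 * m + 2) := p2.trans_le g2
  have n3 : (0 : ℝ) < ((2 * m + 3 : ℕ) : ℝ) := by positivity
  have n2 : (0 : ℝ) < ((2 * m + 2 : ℕ) : ℝ) := by positivity
  have h1 : (u (2 * m + 3) ^ (2 * m + 2)) ^ (1 / (((2 * m + 2 : ℕ) : ℝ) * ((2 * m + 3 : ℕ) : ℝ))) <
      (u (2 * m + 2) ^ (2 * m + 3)) ^ (1 / (((2 * m + 2 : ℕ) : ℝ) * ((2 * m + 3 : ℕ) : ℝ))) :=
    Real.rpow_lt_rpow (by positivity) key (by positivity)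
  have e1 : (u (2 * m + 3) ^ (2 * m + 2)) ^ (1 / (((2 * m + 2 : ℕ) : ℝ) * ((2 * m + 3 : ℕ) : ℝ))) =
      u (2 * m + 3) ^ (1 / ((2 * m + 3 : ℕ) : ℝ)) := by
    rw [← Real.rpow_natCast, ← Real.rpow_mul u3.le]
    congr 1
    field_simp
  have e2 : (u (2 * m + 2) ^ (2 * m + 3)) ^ (1 / (((2 * m + 2 : ℕ) : ℝ) * ((2 * m + 3 : ℕ) : ℝ))) =
      u (2 * m + 2) ^ (1 / ((2 * m + 2 : ℕ) : ℝ)) := by
    rw [← Real.rpow_natCast, ← Real.rpow_mul u2.le]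
    congr 1
    field_simp
  rwa [e1, e2] at h1

end Pool.Agent.Q209.Osc
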