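import Mathlib
import Pool.Agent.Q209.Osc.Fin

/-!
# The function and its sequence
-/

set_option autoImplicit false

namespace Pool.Agent.Q209.Osc

open Finset Filter Topology

/-- The sequence `n_1 = x`, `n_d = ∑ f(d₁, d₂) n_{d₁} n_{d₂}`. -/
noncomputable def seq (f : ℕ → ℕ → ℝ) (x : ℝ) : ℕ → ℝ
  | 0 => 0
  | 1 => x
  | (d + 2) => ∑ i : Fin (d + 1), f (i + 1) (d + 1 - i) * seq f x (i + 1) * seq f x (d + 1 - i)

/-- the unsymmetric function -/
noncomputable def gg (a b : ℕ) : ℝ :=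
  (1 / 64) * ((a : ℝ) * b / (a + b)) + (b : ℝ) ^ 8 / (((a : ℝ) - 2) ^ 2 * (64 * (b : ℝ) ^ 9) + 1) +
    2 ^ 27 / (1 + 2 ^ 33 * (((a : ℝ) - 1) ^ 2 + ((b : ℝ) - 1) ^ 2))

/-- the symmetric function -/
noncomputable def ff (a b : ℕ) : ℝ := (gg a b + gg b a) / 2

theorem gg_pos {a b : ℕ} (ha : 1 ≤ a) (hb : 1 ≤ b) : 0 < gg a b := by
  have ha' : (1 : ℝ) ≤ a := by exact_mod_cast ha
  have hb' : (1 : ℝ) ≤ b := by exact_mod_cast hb
  unfold gg
  positivity

theorem ff_pos {a b : ℕ} (ha : 1 ≤ a) (hb : 1 ≤ b) : 0 < ff a b := by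
  have := gg_pos ha hb
  have := gg_pos hb ha
  unfold ff
  linarith

theorem gg_lower {b : ℕ} (hb : 1 ≤ b) : (b : ℝ) ^ 8 ≤ gg 2 b := by
  have hb' : (1 : ℝ) ≤ b := by exact_mod_cast hb
  unfold gg
  have h1 : (0 : ℝ) ≤ (1 / 64) * (((2 : ℕ) : ℝ) * b / (((2 : ℕ) : ℝ) + b)) := by positivity
  have h2 : (0 : ℝ) ≤ 2 ^ 27 / (1 + 2 ^ 33 * ((((2 : ℕ) : ℝ) - 1) ^ 2 + ((b : ℝ) - 1) ^ 2)) := by
    positivity
  have h3 : (b : ℝ) ^ 8 / ((((2 : ℕ) : ℝ) - 2) ^ 2 * (64 * (b : ℝ) ^ 9) + 1) = (b : ℝ) ^ 8 := by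
    norm_num
  rw [h3]
  linarith

theorem gg_one : 2 ^ 27 ≤ gg 1 1 := by
  unfold gg
  norm_num

theorem sq_ge {a : ℕ} {c : ℕ} (h : a ≠ c) : (1 : ℝ) ≤ ((a : ℝ) - c) ^ 2 := by
  have h1 : (1 : ℤ) ≤ ((a : ℤ) - c) ^ 2 := by
    have : (a : ℤ) - c ≠ 0 := by omega
    have := sq_nonneg ((a : ℤ) - c)
    rcases lt_or_gt_of_ne ‹(a : ℤ) - c ≠ 0› with h | h <;> nlinarith
  exact_mod_cast h1

theorem gg_upper {a b : ℕ} (ha : 1 ≤ a) (hb : 1 ≤ b) (hab : 3 ≤ a + b) :
    gg a b ≤ (if a = 2 then (b : ℝ) ^ 8 else 0) + ((a + b : ℕ) : ℝ) / 64 := by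
  have ha' : (1 : ℝ) ≤ a := by exact_mod_cast ha
  have hb' : (1 : ℝ) ≤ b := by exact_mod_cast hb
  have hab' : (3 : ℝ) ≤ (a : ℝ) + b := by exact_mod_cast hab
  have h3 : (2 : ℝ) ^ 27 / (1 + 2 ^ 33 * (((a : ℝ) - 1) ^ 2 + ((b : ℝ) - 1) ^ 2)) ≤ 1 / 64 := by
    have hs : (1 : ℝ) ≤ ((a : ℝ) - 1) ^ 2 + ((b : ℝ) - 1) ^ 2 := by
      rcases Nat.lt_or_ge 1 a with h | h
      · have := sq_ge (a := a) (c := 1) (by omega)
        have h2 := sq_nonneg ((b : ℝ) - 1)
        push_cast at this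
        linarith
      · have := sq_ge (a := b) (c := 1) (by omega)
        have h2 := sq_nonneg ((a : ℝ) - 1)
        push_cast at this
        linarith
    rw [div_le_div_iff₀ (by positivity) (by norm_num)]
    nlinarith
  unfold gg
  split_ifs with h
  · subst h
    have h2 : (b : ℝ) ^ 8 / ((((2 : ℕ) : ℝ) - 2) ^ 2 * (64 * (b : ℝ) ^ 9) + 1) = (b : ℝ) ^ 8 := by
      norm_num
    have h1 : ((2 : ℕ) : ℝ) * b / (((2 : ℕ) : ℝ) + b) ≤ 2 := by
      rw [div_le_iff₀ (by positivity)]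
      push_cast
      nlinarith
    rw [h2]
    push_cast at h1 h3 ⊢
    linarith
  · have h2 : (b : ℝ) ^ 8 / (((a : ℝ) - 2) ^ 2 * (64 * (b : ℝ) ^ 9) + 1) ≤ 1 / 64 := by
      have := sq_ge (a := a) (c := 2) h
      push_cast at this
      rw [div_le_div_iff₀ (by positivity) (by norm_num)]
      have h9 : (b : ℝ) ^ 8 ≤ (b : ℝ) ^ 9 := by
        rw [pow_succ (b : ℝ) 8]
        have : (0 : ℝ) ≤ (b : ℝ) ^ 8 := by positivity
        nlinarith
      have h10 : (b : ℝ) ^ 9 ≤ ((a : ℝ) - 2) ^ 2 * (b : ℝ) ^ 9 := by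
        have : (0 : ℝ) ≤ (b : ℝ) ^ 9 := by positivity
        nlinarith
      nlinarith
    have h1 : (a : ℝ) * b / (a + b) ≤ (a + b) / 4 := by
      rw [div_le_div_iff₀ (by positivity) (by norm_num)]
      nlinarith [sq_nonneg ((a : ℝ) - b)]
    push_cast
    linarith

theorem seq_two (f : ℕ → ℕ → ℝ) (x : ℝ) (d : ℕ) : seq f x (d + 2) =
    ∑ i ∈ range (d + 1), f (i + 1) (d + 1 - i) * seq f x (i + 1) * seq f x (d + 1 - i) := by
  rw [seq, Finset.sum_range (fun i => f (i + 1) (d + 1 - i) * seq f x (i + 1) *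
    seq f x (d + 1 - i))]

theorem seq_pos {x : ℝ} (hx : 0 < x) (d : ℕ) (hd : 1 ≤ d) : 0 < seq ff x d := by
  induction d using Nat.strong_induction_on with
  | _ d ih =>
    rcases Nat.lt_or_ge d 2 with h | h
    · obtain rfl : d = 1 := by omega
      simpa [seq] using hx
    · obtain ⟨e, rfl⟩ : ∃ e, d = e + 2 := ⟨d - 2, by omega⟩
      rw [seq_two]
      refine Finset.sum_pos (fun i hi => ?_) ⟨0, by simp⟩
      rw [Finset.mem_range] at hi
      have h1 := ff_pos (a := i + 1) (b := e + 1 - i) (by omega) (by omega)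
      have h2 := ih (i + 1) (by omega) (by omega)
      have h3 := ih (e + 1 - i) (by omega) (by omega)
      positivity

theorem seq_gg (x : ℝ) (d : ℕ) : seq ff x (d + 2) =
    ∑ i ∈ range (d + 1), gg (i + 1) (d + 1 - i) * seq ff x (i + 1) * seq ff x (d + 1 - i) := by
  rw [seq_two]
  have h1 := Finset.sum_range_reflect
    (fun i => gg (i + 1) (d + 1 - i) * seq ff x (i + 1) * seq ff x (d + 1 - i)) (d + 1)
  have h2 : ∑ i ∈ range (d + 1), gg (d + 1 - i) (i + 1) * seq ff x (i + 1) * seq ff x (d + 1 - i) =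
      ∑ i ∈ range (d + 1), gg (i + 1) (d + 1 - i) * seq ff x (i + 1) * seq ff x (d + 1 - i) := by
    rw [← h1]
    refine Finset.sum_congr rfl fun i hi => ?_
    rw [Finset.mem_range] at hi
    rw [show d + 1 - 1 - i + 1 = d + 1 - i by omega, show d + 1 - (d + 1 - 1 - i) = i + 1 by omega]
    ring
  have h3 : ∀ i ∈ range (d + 1), ff (i + 1) (d + 1 - i) * seq ff x (i + 1) * seq ff x (d + 1 - i) =
      (gg (i + 1) (d + 1 - i) * seq ff x (i + 1) * seq ff x (d + 1 - i)) / 2 +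
      (gg (d + 1 - i) (i + 1) * seq ff x (i + 1) * seq ff x (d + 1 - i)) / 2 := by
    intro i _
    rw [show ff (i + 1) (d + 1 - i) = (gg (i + 1) (d + 1 - i) + gg (d + 1 - i) (i + 1)) / 2 from rfl]
    ring
  rw [Finset.sum_congr rfl h3, Finset.sum_add_distrib, ← Finset.sum_div, ← Finset.sum_div, h2]
  ring

/-- the normalised sequence -/
noncomputable def uu (x : ℝ) (d : ℕ) : ℝ := seq ff x d / x ^ d

theorem uu_pos {x : ℝ} (hx : 0 < x) (d : ℕ) (hd : 1 ≤ d) : 0 < uu x d :=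
  div_pos (seq_pos hx d hd) (by positivity)

theorem uu_two {x : ℝ} (hx : 0 < x) (d : ℕ) : uu x (d + 2) =
    ∑ i ∈ range (d + 1), gg (i + 1) (d + 1 - i) * (uu x (i + 1) * uu x (d + 1 - i)) := by
  unfold uu
  rw [seq_gg, Finset.sum_div]
  refine Finset.sum_congr rfl fun i hi => ?_
  rw [Finset.mem_range] at hi
  have h1 : x ^ (d + 2) = x ^ (i + 1) * x ^ (d + 1 - i) := by
    rw [← pow_add]; congr 1; omega
  rw [h1]
  have h2 : x ^ (i + 1) ≠ 0 := by positivity
  have h3 : x ^ (d + 1 - i) ≠ 0 := by positivity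
  field_simp

theorem uu_rec {x : ℝ} (hx : 0 < x) : Rec (gg 1 1) (uu x) where
  one := by
    unfold uu
    simp [seq, hx.ne']
  two := by
    have := uu_two hx 0
    have h1 : uu x 1 = 1 := by unfold uu; simp [seq, hx.ne']
    simpa [h1] using this
  lower := by
    intro d hd
    have h2 : uu x 2 = gg 1 1 := by
      have := uu_two hx 0
      have h1 : uu x 1 = 1 := by unfold uu; simp [seq, hx.ne']
      simpa [h1] using this
    rw [uu_two hx d]
    have hs := Finset.single_le_sum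
      (f := fun i => gg (i + 1) (d + 1 - i) * (uu x (i + 1) * uu x (d + 1 - i)))
      (s := range (d + 1)) (fun i hi => by
        rw [Finset.mem_range] at hi
        have h1 := gg_pos (a := i + 1) (b := d + 1 - i) (by omega) (by omega)
        have h2 := uu_pos hx (i + 1) (by omega)
        have h3 := uu_pos hx (d + 1 - i) (by omega)
        positivity) (Finset.mem_range.2 (by omega : 1 < d + 1))
    refine le_trans ?_ hs
    rw [show d + 1 - 1 = d by omega, show (1 + 1 : ℕ) = 2 from rfl, h2, mul_assoc]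
    have h3 := uu_pos hx d hd
    have h4 := gg_lower hd
    have h5 : 0 < gg 1 1 := gg_pos le_rfl le_rfl
    gcongr
  upper := by
    intro d hd
    have h2 : uu x 2 = gg 1 1 := by
      have := uu_two hx 0
      have h1 : uu x 1 = 1 := by unfold uu; simp [seq, hx.ne']
      simpa [h1] using this
    rw [uu_two hx d]
    have hs : ∑ i ∈ range (d + 1), gg (i + 1) (d + 1 - i) * (uu x (i + 1) * uu x (d + 1 - i)) ≤
        ∑ i ∈ range (d + 1), ((if i = 1 then (d : ℝ) ^ 8 * (uu x 2 * uu x d) else 0) +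
          ((d + 2 : ℕ) : ℝ) / 64 * (uu x (i + 1) * uu x (d + 1 - i))) := by
      refine Finset.sum_le_sum fun i hi => ?_
      rw [Finset.mem_range] at hi
      have h1 := gg_upper (a := i + 1) (b := d + 1 - i) (by omega) (by omega) (by omega)
      rw [show i + 1 + (d + 1 - i) = d + 2 by omega] at h1
      have p1 := uu_pos hx (i + 1) (by omega)
      have p2 := uu_pos hx (d + 1 - i) (by omega)
      have hp : 0 ≤ uu x (i + 1) * uu x (d + 1 - i) := by positivity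
      refine (mul_le_mul_of_nonneg_right h1 hp).trans (le_of_eq ?_)
      by_cases hi1 : i = 1
      · subst hi1
        rw [if_pos rfl, if_pos rfl, show d + 1 - 1 = d by omega, show (1 + 1 : ℕ) = 2 from rfl]
        ring
      · rw [if_neg (by omega), if_neg hi1]
        ring
    refine hs.trans (le_of_eq ?_)
    rw [Finset.sum_add_distrib, Finset.sum_ite_eq' (range (d + 1)) 1,
      if_pos (Finset.mem_range.2 (by omega)), h2, ← Finset.mul_sum]
    ring

/-- **The roots decrease from every even index to the next one.** -/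
theorem root_lt {x : ℝ} (hx : 0 < x) (m : ℕ) :
    seq ff x (2 * m + 3) ^ (1 / ((2 * m + 3 : ℕ) : ℝ)) <
      seq ff x (2 * m + 2) ^ (1 / ((2 * m + 2 : ℕ) : ℝ)) := by
  have h := (uu_rec hx).root_lt gg_one m
  have hr : ∀ d : ℕ, 1 ≤ d → seq ff x d ^ (1 / (d : ℝ)) = x * uu x d ^ (1 / (d : ℝ)) := by
    intro d hd
    have hd0 : (d : ℝ) ≠ 0 := by positivity
    have h1 : seq ff x d = x ^ d * uu x d := by
      unfold uu
      field_simp
    rw [h1, Real.mul_rpow (by positivity) (uu_pos hx d hd).le, ← Real.rpow_natCast x d,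
      ← Real.rpow_mul hx.le]
    rw [show (d : ℝ) * (1 / (d : ℝ)) = 1 by field_simp, Real.rpow_one]
  rw [hr _ (by omega), hr _ (by omega)]
  exact mul_lt_mul_of_pos_left h hx

end Pool.Agent.Q209.Osc
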