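import Mathlib
import Pool.Agent.Q209.Osc.Fun

/-!
# Admissibility of the function
-/

set_option autoImplicit false

namespace Pool.Agent.Q209.Osc

open Finset Filter Topology

/-- On the positive integers `f` is the quotient of two polynomials with rational coefficients, the
denominator having no zero there. -/
def IsRat (f : ℕ → ℕ → ℝ) : Prop :=
  ∃ p q : MvPolynomial (Fin 2) ℚ, ∀ a b : ℕ, 1 ≤ a → 1 ≤ b →
    MvPolynomial.eval ![(a : ℚ), (b : ℚ)] q ≠ 0 ∧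
      f a b = ((MvPolynomial.eval ![(a : ℚ), (b : ℚ)] p /
        MvPolynomial.eval ![(a : ℚ), (b : ℚ)] q : ℚ) : ℝ)

theorem IsRat.const (c : ℚ) : IsRat fun _ _ => (c : ℝ) :=
  ⟨MvPolynomial.C c, 1, fun a b _ _ => by simp⟩

theorem IsRat.fst : IsRat fun a _ => (a : ℝ) :=
  ⟨MvPolynomial.X 0, 1, fun a b _ _ => by simp⟩

theorem IsRat.snd : IsRat fun _ b => (b : ℝ) :=
  ⟨MvPolynomial.X 1, 1, fun a b _ _ => by simp⟩

theorem IsRat.add {f g : ℕ → ℕ → ℝ} (hf : IsRat f) (hg : IsRat g) :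
    IsRat fun a b => f a b + g a b := by
  obtain ⟨p, q, h⟩ := hf
  obtain ⟨r, s, h'⟩ := hg
  refine ⟨p * s + r * q, q * s, fun a b ha hb => ?_⟩
  obtain ⟨h1, h2⟩ := h a b ha hb
  obtain ⟨h3, h4⟩ := h' a b ha hb
  refine ⟨by simpa using ⟨h1, h3⟩, ?_⟩
  show f a b + g a b = _
  rw [h2, h4, ← Rat.cast_add]
  congr 1
  simp only [map_add, map_mul]
  field_simp

theorem IsRat.mul {f g : ℕ → ℕ → ℝ} (hf : IsRat f) (hg : IsRat g) :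
    IsRat fun a b => f a b * g a b := by
  obtain ⟨p, q, h⟩ := hf
  obtain ⟨r, s, h'⟩ := hg
  refine ⟨p * r, q * s, fun a b ha hb => ?_⟩
  obtain ⟨h1, h2⟩ := h a b ha hb
  obtain ⟨h3, h4⟩ := h' a b ha hb
  refine ⟨by simpa using ⟨h1, h3⟩, ?_⟩
  show f a b * g a b = _
  rw [h2, h4, ← Rat.cast_mul]
  congr 1
  simp only [map_mul]
  field_simp

theorem IsRat.pow {f : ℕ → ℕ → ℝ} (hf : IsRat f) : ∀ k : ℕ, IsRat fun a b => f a b ^ k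
  | 0 => by simpa using IsRat.const 1
  | k + 1 => by simpa only [pow_succ] using (IsRat.pow hf k).mul hf

theorem IsRat.div {f g : ℕ → ℕ → ℝ} (hf : IsRat f) (hg : IsRat g)
    (h0 : ∀ a b : ℕ, 1 ≤ a → 1 ≤ b → g a b ≠ 0) : IsRat fun a b => f a b / g a b := by
  obtain ⟨p, q, h⟩ := hf
  obtain ⟨r, s, h'⟩ := hg
  refine ⟨p * s, q * r, fun a b ha hb => ?_⟩
  obtain ⟨h1, h2⟩ := h a b ha hb
  obtain ⟨h3, h4⟩ := h' a b ha hb
  have h5 : MvPolynomial.eval ![(a : ℚ), (b : ℚ)] r ≠ 0 := by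
    intro h6
    exact h0 a b ha hb (by rw [h4, h6]; simp)
  refine ⟨by simpa using ⟨h1, h5⟩, ?_⟩
  show f a b / g a b = _
  rw [h2, h4, ← Rat.cast_div]
  congr 1
  simp only [map_mul]
  field_simp

theorem IsRat.swap {f : ℕ → ℕ → ℝ} (hf : IsRat f) : IsRat fun a b => f b a := by
  obtain ⟨p, q, h⟩ := hf
  refine ⟨MvPolynomial.rename (Equiv.swap (0 : Fin 2) 1) p,
    MvPolynomial.rename (Equiv.swap (0 : Fin 2) 1) q, fun a b ha hb => ?_⟩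
  have e : (![(a : ℚ), (b : ℚ)] ∘ (Equiv.swap (0 : Fin 2) 1)) = ![(b : ℚ), (a : ℚ)] := by
    funext i
    fin_cases i <;> simp
  simpa only [MvPolynomial.eval_rename, e] using h b a hb ha

theorem gg_rat : IsRat gg := by
  have hc : ∀ c : ℚ, IsRat fun _ _ => (c : ℝ) := IsRat.const
  have ha := IsRat.fst
  have hb := IsRat.snd
  have t1 : IsRat fun a b => ((1 / 64 : ℚ) : ℝ) * ((a : ℝ) * b / (a + b)) := by
    refine (hc (1 / 64)).mul ((ha.mul hb).div (ha.add hb) fun a b h1 h2 => ?_)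
    have : (1 : ℝ) ≤ a := by exact_mod_cast h1
    positivity
  have t2 : IsRat fun a b => (b : ℝ) ^ 8 /
      (((a : ℝ) + ((-2 : ℚ) : ℝ)) ^ 2 * (((64 : ℚ) : ℝ) * (b : ℝ) ^ 9) + ((1 : ℚ) : ℝ)) := by
    refine (hb.pow 8).div ((((ha.add (hc (-2))).pow 2).mul ((hc 64).mul (hb.pow 9))).add (hc 1))
      fun a b h1 h2 => ?_
    push_cast
    positivity
  have t3 : IsRat fun a b => ((2 ^ 27 : ℚ) : ℝ) / (((1 : ℚ) : ℝ) + ((2 ^ 33 : ℚ) : ℝ) *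
      (((a : ℝ) + ((-1 : ℚ) : ℝ)) ^ 2 + ((b : ℝ) + ((-1 : ℚ) : ℝ)) ^ 2)) := by
    refine (hc (2 ^ 27)).div ((hc 1).add ((hc (2 ^ 33)).mul
      (((ha.add (hc (-1))).pow 2).add ((hb.add (hc (-1))).pow 2)))) fun a b h1 h2 => ?_
    push_cast
    positivity
  have h := (t1.add t2).add t3
  have e : gg = fun a b : ℕ => ((1 / 64 : ℚ) : ℝ) * ((a : ℝ) * b / (a + b)) + (b : ℝ) ^ 8 /
      (((a : ℝ) + ((-2 : ℚ) : ℝ)) ^ 2 * (((64 : ℚ) : ℝ) * (b : ℝ) ^ 9) + ((1 : ℚ) : ℝ)) +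
      ((2 ^ 27 : ℚ) : ℝ) / (((1 : ℚ) : ℝ) + ((2 ^ 33 : ℚ) : ℝ) *
      (((a : ℝ) + ((-1 : ℚ) : ℝ)) ^ 2 + ((b : ℝ) + ((-1 : ℚ) : ℝ)) ^ 2)) := by
    funext a b
    unfold gg
    push_cast
    ring
  rw [e]
  exact h

theorem ff_rat : IsRat ff := by
  have h := (gg_rat.add gg_rat.swap).div (IsRat.const 2) fun a b _ _ => by norm_num
  have e : ff = fun a b => (gg a b + gg b a) / ((2 : ℚ) : ℝ) := by
    funext a b
    unfold ff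
    norm_num
  rw [e]
  exact h

theorem ff_symm (a b : ℕ) : ff a b = ff b a := by
  unfold ff
  ring

theorem gg_ratio {a b : ℕ} (ha : 3 ≤ a) (hb : 3 ≤ b) :
    1 / 64 * ((a : ℝ) * b / (a + b)) ≤ gg a b ∧
      gg a b ≤ (1 / 64 + (1 / (a : ℝ) + 1 / (b : ℝ))) * ((a : ℝ) * b / (a + b)) := by
  have ha' : (3 : ℝ) ≤ a := by exact_mod_cast ha
  have hb' : (3 : ℝ) ≤ b := by exact_mod_cast hb
  have h2 : (b : ℝ) ^ 8 / (((a : ℝ) - 2) ^ 2 * (64 * (b : ℝ) ^ 9) + 1) ≤ 1 / 2 := by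
    rw [div_le_div_iff₀ (by positivity) (by norm_num)]
    have h9 : (b : ℝ) ^ 8 ≤ (b : ℝ) ^ 9 := by
      rw [pow_succ (b : ℝ) 8]
      have : (0 : ℝ) ≤ (b : ℝ) ^ 8 := by positivity
      nlinarith
    have h10 : (b : ℝ) ^ 9 ≤ ((a : ℝ) - 2) ^ 2 * (b : ℝ) ^ 9 := by
      have : (0 : ℝ) ≤ (b : ℝ) ^ 9 := by positivity
      have h11 : (1 : ℝ) ≤ ((a : ℝ) - 2) ^ 2 := by nlinarith
      nlinarith
    nlinarith
  have h3 : (2 : ℝ) ^ 27 / (1 + 2 ^ 33 * (((a : ℝ) - 1) ^ 2 + ((b : ℝ) - 1) ^ 2)) ≤ 1 / 2 := by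
    rw [div_le_div_iff₀ (by positivity) (by norm_num)]
    nlinarith [sq_nonneg ((b : ℝ) - 1)]
  have h4 : (1 / (a : ℝ) + 1 / (b : ℝ)) * ((a : ℝ) * b / (a + b)) = 1 := by
    field_simp
    ring
  have h5 : (0 : ℝ) ≤ (b : ℝ) ^ 8 / (((a : ℝ) - 2) ^ 2 * (64 * (b : ℝ) ^ 9) + 1) := by positivity
  have h6 : (0 : ℝ) ≤ 2 ^ 27 / (1 + 2 ^ 33 * (((a : ℝ) - 1) ^ 2 + ((b : ℝ) - 1) ^ 2)) := by
    positivity
  rw [add_mul, h4]
  unfold gg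
  constructor <;> linarith

theorem ff_limit : Tendsto (fun p : ℕ × ℕ =>
    ff p.1 p.2 / (((p.1 : ℝ) * p.2 / (p.1 + p.2)) ^ (1 : ℝ))) (atTop ×ˢ atTop) (𝓝 (1 / 64)) := by
  have hl : ∀ p : ℕ × ℕ, 3 ≤ p.1 → 3 ≤ p.2 →
      1 / 64 ≤ ff p.1 p.2 / (((p.1 : ℝ) * p.2 / (p.1 + p.2)) ^ (1 : ℝ)) ∧
      ff p.1 p.2 / (((p.1 : ℝ) * p.2 / (p.1 + p.2)) ^ (1 : ℝ)) ≤
        1 / 64 + (1 / (p.1 : ℝ) + 1 / (p.2 : ℝ)) := by
    rintro ⟨a, b⟩ ha hb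
    dsimp only at ha hb ⊢
    have ha' : (3 : ℝ) ≤ a := by exact_mod_cast ha
    have hb' : (3 : ℝ) ≤ b := by exact_mod_cast hb
    obtain ⟨h1, h2⟩ := gg_ratio ha hb
    obtain ⟨h3, h4⟩ := gg_ratio hb ha
    rw [show (b : ℝ) * a / (b + a) = (a : ℝ) * b / (a + b) by ring_nf] at h3 h4
    have hp : (0 : ℝ) < (a : ℝ) * b / (a + b) := by positivity
    rw [Real.rpow_one, le_div_iff₀ hp, div_le_iff₀ hp]
    unfold ff
    constructor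
    · linarith
    · have h5 : (1 / 64 + (1 / (b : ℝ) + 1 / (a : ℝ))) = (1 / 64 + (1 / (a : ℝ) + 1 / (b : ℝ))) := by
        ring
      rw [h5] at h4
      linarith
  have hev : ∀ᶠ p : ℕ × ℕ in atTop ×ˢ atTop, 3 ≤ p.1 ∧ 3 ≤ p.2 :=
    (eventually_ge_atTop 3).prod_mk (eventually_ge_atTop 3)
  have ht : Tendsto (fun p : ℕ × ℕ => (1 / 64 + (1 / (p.1 : ℝ) + 1 / (p.2 : ℝ))))
      (atTop ×ˢ atTop) (𝓝 (1 / 64 + (0 + 0))) := by
    refine tendsto_const_nhds.add (Tendsto.add ?_ ?_)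
    · exact tendsto_one_div_atTop_nhds_zero_nat.comp tendsto_fst
    · exact tendsto_one_div_atTop_nhds_zero_nat.comp tendsto_snd
  rw [add_zero, add_zero] at ht
  exact tendsto_of_tendsto_of_tendsto_of_le_of_le' tendsto_const_nhds ht
    (hev.mono fun p hp => (hl p hp.1 hp.2).1) (hev.mono fun p hp => (hl p hp.1 hp.2).2)

end Pool.Agent.Q209.Osc
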